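import Pool.Agent.H52.DimsProof

/-!
Full answer to Q1: each of the five homological dimensions of Banach spaces takes all the values
`0, 1, 2, …, ∞`. The definitions are in `Pool.Agent.H52.Dims`.
-/

namespace Pool.Agent.Results.MP_8bfc08_an.AllValues

open Pool.Agent.BanachDim

universe u

/-- For `𝕜 = ℝ` or `ℂ`, the set of values of each of the projective, flat, injective,
absolutely-pure and pure-injective dimensions over all Banach spaces is `{0, 1, 2, …} ∪ {∞}`. -/
theorem result (𝕜 : Type) [RCLike 𝕜] :
    Set.range (fun X : Ban.{u} 𝕜 => pd X) = Set.univ ∧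
    Set.range (fun X : Ban.{u} 𝕜 => fd X) = Set.univ ∧
    Set.range (fun X : Ban.{u} 𝕜 => injDim X) = Set.univ ∧
    Set.range (fun X : Ban.{u} 𝕜 => apd X) = Set.univ ∧
    Set.range (fun X : Ban.{u} 𝕜 => pid X) = Set.univ :=
  Pool.Agent.H52.new_all_values 𝕜

end Pool.Agent.Results.MP_8bfc08_an.AllValues
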